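import Pool.Agent.Lib.MP_e6fef2_lc.Bridge
import Pool.Agent.Lib.MP_c5d73d_lc.F.H62.Roapi

/-!
# Module XNZ
-/

universe u

open Cardinal Filter

namespace Pool.Agent.Lib.MP_e6fef2_lc.H25

open Pool.Agent.Lib.MP_100a6c_lc
open Pool.Agent.Lib.MP_c5d73d_lc.F (pr)
open Pool.Agent.Lib.MP_c5d73d_lc.F.H62 (pr_le_iff pr_mono mem_reg pr_ne_bot eq_iSup_pr)

theorem xnz (hC : ClubStatement.{u}) (hA : AlgStatement.{u}) (hD : DmrStatement.{u}) :
    XnzStatement.{u} := by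
  intro S _ hS B _ ι hι hpe
  obtain ⟨-, hgen, -⟩ := hD S
  obtain ⟨-, -, -, -, -, -, hf2, -⟩ := hC
  obtain ⟨-, -, -, -, hle, -, -, -, -, hself, hadj, -, hmono, -, -, -, hinf, hbot, -⟩ := hA _ _ ι hι
  classical
  let g : B → S → S := fun b s =>
    if h : ∃ t, t ≤ s ∧ pr t ≤ prj ι b then h.choose else s
  filter_upwards [hgen, hpe, hf2 B S S g] with N h1 h2 h3 b hb s hs hne
  have hex : ∃ t, t ≤ s ∧ (pr t : H1.RO S) ≤ prj ι b := by
    have h4 : prj ι (b ⊓ ι (pr s)) ≠ ⊥ := by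
      rw [Ne, hbot, inf_comm]
      exact hne
    rw [hinf] at h4
    have h5 := eq_iSup_pr (prj ι b ⊓ pr s)
    by_contra hcon
    push Not at hcon
    apply h4
    refine h5.trans ?_
    rw [iSup_eq_bot]
    rintro ⟨t, ht⟩
    exfalso
    have ht1 : pr t ≤ pr s := ht.trans inf_le_right
    rw [pr_le_iff, Pool.Agent.Lib.MP_c5d73d_lc.F.H62.mem_pr_iff] at ht1
    obtain ⟨r, hr, hrs⟩ := ht1 t le_rfl
    exact hcon r hrs ((pr_mono hr).trans (ht.trans inf_le_left))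
  have hg : g b s ≤ s ∧ (pr (g b s) : H1.RO S) ≤ prj ι b := by
    have : g b s = hex.choose := dif_pos hex
    rw [this]
    exact hex.choose_spec
  refine ⟨g b s, hg.1, h3 b s hb hs, fun s' hs' hsg hzero => ?_⟩
  have h6 : (pr s' : H1.RO S) ≤ prj ι (gen B N ⊓ b) :=
    le_trans (le_inf (h1 s' hsg) ((pr_mono hs').trans hg.2)) (h2 b hb)
  have h7 : prj ι ((gen B N ⊓ b) ⊓ ι (pr s')) = ⊥ := by
    rw [hbot, inf_comm]; exact hzero
  rw [hinf, inf_eq_right.2 h6] at h7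
  exact pr_ne_bot s' h7

end Pool.Agent.Lib.MP_e6fef2_lc.H25
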